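import Mathlib
import Pool.Agent.Lib.H98M.M0

/-!
# Existence of an uncrossed 2-cut

`G` 2-connected with a 2-cut and at least `n + 1` edges: there is a 2-cut `{x, y}` which separates no
2-cut `{u, v}` (helper97's excess argument: over all 2-separations `(x, y, S, T)` with
`e(G[S ∪ {x, y}]) ≥ |S| + 2` take one with `|S|` minimal).
-/

open Finset

namespace H53E

open H98M (Disc)

variable {V : Type*} [Fintype V] [DecidableEq V]

/-- `{x, y}` separates two vertices of `W` (`W` may contain other vertices too). -/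
def Sep (G : Finset (Sym2 V)) (x y : V) (W : Finset V) : Prop :=
  ∃ C D : Finset V, Disjoint C D ∧ C ∪ D = (univ.erase x).erase y ∧
    (∀ a ∈ C, ∀ b ∈ D, s(a, b) ∉ G) ∧ (W ∩ C).Nonempty ∧ (W ∩ D).Nonempty

/-- the 2-cut `{x, y}` is crossed by no 2-cut. -/
def Unc (G : Finset (Sym2 V)) (x y : V) : Prop :=
  ∀ u v, u ≠ x → u ≠ y → v ≠ x → v ≠ y → Disc ((univ.erase u).erase v) G → ¬ Sep G x y {u, v}

/-- a 2-separation with sides `S`, `T`. -/
def TS (G : Finset (Sym2 V)) (x y : V) (S T : Finset V) : Prop :=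
  x ≠ y ∧ S.Nonempty ∧ T.Nonempty ∧ Disjoint S T ∧ (∀ a, (a ∈ S ∨ a ∈ T) ↔ (a ≠ x ∧ a ≠ y)) ∧
    ∀ a ∈ S, ∀ b ∈ T, s(a, b) ∉ G

open Classical in
/-- number of edges (no loops) inside `A`. -/
noncomputable def ex (G : Finset (Sym2 V)) (A : Finset V) : ℕ :=
  (G.filter fun e => ¬ e.IsDiag ∧ ∀ a ∈ e, a ∈ A).card

theorem ex_le (G : Finset (Sym2 V)) (A B : Finset V)
    (h : ∀ a ∈ A, ∀ b ∈ B, a ∉ B → b ∉ A → s(a, b) ∉ G) :
    ex G (A ∪ B) ≤ ex G A + ex G B := by
  classical
  unfold ex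
  refine (card_le_card ?_).trans (card_union_le _ _)
  intro e
  induction e using Sym2.ind with
  | _ a b =>
    simp only [mem_filter, mem_union, Sym2.mem_iff, forall_eq_or_imp, forall_eq]
    rintro ⟨he, hd, ha, hb⟩
    by_cases h1 : a ∈ A ∧ b ∈ A
    · exact Or.inl ⟨he, hd, h1⟩
    by_cases h2 : a ∈ B ∧ b ∈ B
    · exact Or.inr ⟨he, hd, h2⟩
    exfalso
    rcases ha with ha | ha
    · have hbA : b ∉ A := fun hb' => h1 ⟨ha, hb'⟩
      have hbB : b ∈ B := hb.resolve_left hbA
      have haB : a ∉ B := fun ha' => h2 ⟨ha', hbB⟩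
      exact h a ha b hbB haB hbA he
    · have hbB : b ∉ B := fun hb' => h2 ⟨ha, hb'⟩
      have hbA : b ∈ A := hb.resolve_right hbB
      have haA : a ∉ A := fun ha' => h1 ⟨ha', hbA⟩
      rw [Sym2.eq_swap] at he
      exact h b hbA a ha hbB haA he

theorem ex_pair (G : Finset (Sym2 V)) (x p : V) : ex G (insert p (insert x ∅)) ≤ 1 := by
  classical
  unfold ex
  refine (card_le_card (t := {s(x, p)}) ?_).trans (by simp)
  intro e
  induction e using Sym2.ind with
  | _ a b =>
    simp only [mem_filter, mem_insert, notMem_empty, or_false, Sym2.mem_iff, forall_eq_or_imp,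
      forall_eq, mem_singleton, Sym2.mk_isDiag_iff]
    rintro ⟨-, hd, ha, hb⟩
    rcases ha with rfl | rfl <;> rcases hb with rfl | rfl
    · exact absurd rfl hd
    · exact Sym2.eq_swap
    · rfl
    · exact absurd rfl hd

/-- a nonempty set attached only at `z`: `z` is a cut vertex. -/
theorem cutz {G : Finset (Sym2 V)} {A : Finset V} {z w : V} (hA : A.Nonempty) (hz : z ∉ A)
    (hw : w ∉ A) (hwz : w ≠ z) (h : ∀ a ∈ A, ∀ b, b ∉ A → b ≠ z → s(a, b) ∉ G) :
    Disc (univ.erase z) G := by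
  refine ⟨A, (univ.erase z) \ A, hA, ⟨w, by simp [hw, hwz]⟩, disjoint_sdiff, ?_, ?_⟩
  · ext a
    simp only [mem_union, mem_sdiff, mem_erase, mem_univ, and_true]
    constructor
    · rintro (ha | ha)
      · rintro rfl
        exact hz ha
      · exact ha.1
    · intro ha
      by_cases h' : a ∈ A
      · exact Or.inl h'
      · exact Or.inr ⟨ha, h'⟩
  · intro a ha b hb
    simp only [mem_sdiff, mem_erase, mem_univ, and_true] at hb
    exact h a ha b hb.2 hb.1

/-- the minimality step. -/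
theorem smaller {G : Finset (Sym2 V)} {x y p q : V} {S T P Q : Finset V} (hT : TS G x y S T)
    (hex : S.card + 2 ≤ ex G (insert x (insert y S))) (hpS : p ∈ S) (hqT : q ∈ T)
    (hPQ : ∀ a, (a ∈ P ∨ a ∈ Q) ↔ (a ≠ p ∧ a ≠ q)) (hd : Disjoint P Q) (hxP : x ∈ P) (hyQ : y ∈ Q)
    (hno : ∀ a ∈ P, ∀ b ∈ Q, s(a, b) ∉ G) :
    ∃ x' y' S' T', TS G x' y' S' T' ∧ S'.card + 2 ≤ ex G (insert x' (insert y' S')) ∧
      S'.card < S.card := by
  classical
  obtain ⟨hxy, hSn, hTn, hST, hcov, hnST⟩ := hT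
  have hpP : p ∉ P := fun h => ((hPQ p).1 (Or.inl h)).1 rfl
  have hpQ : p ∉ Q := fun h => ((hPQ p).1 (Or.inr h)).1 rfl
  have hqP : q ∉ P := fun h => ((hPQ q).1 (Or.inl h)).2 rfl
  have hqQ : q ∉ Q := fun h => ((hPQ q).1 (Or.inr h)).2 rfl
  have hxS : x ∉ S := fun h => ((hcov x).1 (Or.inl h)).1 rfl
  have hyS : y ∉ S := fun h => ((hcov y).1 (Or.inl h)).2 rfl
  have hxT : x ∉ T := fun h => ((hcov x).1 (Or.inr h)).1 rfl
  have hyT : y ∉ T := fun h => ((hcov y).1 (Or.inr h)).2 rfl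
  have hpT : p ∉ T := fun h => (Finset.disjoint_left.1 hST hpS) h
  have hqS : q ∉ S := fun h => (Finset.disjoint_left.1 hST h) hqT
  have hxQ : x ∉ Q := fun h => Finset.disjoint_left.1 hd hxP h
  have hyP : y ∉ P := fun h => Finset.disjoint_left.1 hd h hyQ
  have hswap : ∀ a b, s(a, b) ∉ G → s(b, a) ∉ G := by
    intro a b h
    rwa [Sym2.eq_swap]
  -- the decomposition of the edges
  have hdec : insert x (insert y S) =
      insert p (insert x (S ∩ P)) ∪ insert p (insert y (S ∩ Q)) := by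
    ext a
    simp only [mem_insert, mem_union, mem_inter]
    constructor
    · rintro (rfl | rfl | ha)
      · simp
      · simp
      · by_cases hap : a = p
        · simp [hap]
        · have haq : a ≠ q := by
            rintro rfl
            exact hqS ha
          rcases (hPQ a).2 ⟨hap, haq⟩ with h | h
          · simp [ha, h]
          · simp [ha, h]
    · rintro ((rfl | rfl | ha) | (rfl | rfl | ha))
      · simp [hpS]
      · simp
      · simp [ha.1]
      · simp [hpS]
      · simp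
      · simp [ha.1]
  have hle : ex G (insert x (insert y S)) ≤
      ex G (insert p (insert x (S ∩ P))) + ex G (insert p (insert y (S ∩ Q))) := by
    rw [hdec]
    refine ex_le _ _ _ ?_
    intro a ha b hb haB hbA
    have hap : a ≠ p := by
      rintro rfl
      exact haB (by simp)
    have hbp : b ≠ p := by
      rintro rfl
      exact hbA (by simp)
    have haP : a ∈ P := by
      rcases mem_insert.1 ha with h | h
      · exact absurd h hap
      rcases mem_insert.1 h with h | h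
      · exact h ▸ hxP
      · exact (mem_inter.1 h).2
    have hbQ : b ∈ Q := by
      rcases mem_insert.1 hb with h | h
      · exact absurd h hbp
      rcases mem_insert.1 h with h | h
      · exact h ▸ hyQ
      · exact (mem_inter.1 h).2
    exact hno a haP b hbQ
  have hcard : S.card = (S ∩ P).card + (S ∩ Q).card + 1 := by
    have h1 : S = insert p ((S ∩ P) ∪ (S ∩ Q)) := by
      ext a
      simp only [mem_insert, mem_union, mem_inter]
      constructor
      · intro ha
        by_cases hap : a = p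
        · exact Or.inl hap
        · have haq : a ≠ q := by
            rintro rfl
            exact hqS ha
          rcases (hPQ a).2 ⟨hap, haq⟩ with h | h
          · exact Or.inr (Or.inl ⟨ha, h⟩)
          · exact Or.inr (Or.inr ⟨ha, h⟩)
      · rintro (rfl | ha | ha)
        · exact hpS
        · exact ha.1
        · exact ha.1
    have hpn : p ∉ (S ∩ P) ∪ (S ∩ Q) := by
      simp [hpP, hpQ]
    have hdis : Disjoint (S ∩ P) (S ∩ Q) :=
      hd.mono inter_subset_right inter_subset_right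
    calc S.card = (insert p ((S ∩ P) ∪ (S ∩ Q))).card := by rw [← h1]
      _ = _ := by rw [card_insert_of_notMem hpn, card_union_of_disjoint hdis]
  have hor : (S ∩ P).card + 2 ≤ ex G (insert p (insert x (S ∩ P))) ∨
      (S ∩ Q).card + 2 ≤ ex G (insert p (insert y (S ∩ Q))) := by omega
  rcases hor with h1 | h1
  · have hne : (S ∩ P).Nonempty := by
      rw [nonempty_iff_ne_empty]
      intro h0
      rw [h0] at h1
      have := ex_pair G x p
      rw [card_empty] at h1
      omega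
    refine ⟨p, x, S ∩ P, ((univ.erase p).erase x) \ (S ∩ P), ⟨?_, hne, ⟨y, ?_⟩, disjoint_sdiff,
      ?_, ?_⟩, h1, ?_⟩
    · rintro rfl
      exact hxS hpS
    · simp only [mem_sdiff, mem_erase, mem_univ, and_true, mem_inter, not_and]
      exact ⟨⟨fun h => hxy h.symm, fun h => hyS (h ▸ hpS)⟩, fun h => absurd h hyS⟩
    · intro a
      simp only [mem_sdiff, mem_erase, mem_univ, and_true]
      constructor
      · rintro (h | h)
        · constructor
          · rintro rfl
            exact hpP (mem_inter.1 h).2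
          · rintro rfl
            exact hxS (mem_inter.1 h).1
        · exact ⟨h.1.2, h.1.1⟩
      · rintro ⟨h2, h3⟩
        by_cases h4 : a ∈ S ∩ P
        · exact Or.inl h4
        · exact Or.inr ⟨⟨h3, h2⟩, h4⟩
    · intro a ha b hb
      simp only [mem_sdiff, mem_erase, mem_univ, and_true] at hb
      obtain ⟨⟨hbx, hbp⟩, hbn⟩ := hb
      have haS := (mem_inter.1 ha).1
      have haP := (mem_inter.1 ha).2
      by_cases hbq : b = q
      · subst hbq
        exact hnST a haS _ hqT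
      rcases (hPQ b).2 ⟨hbp, hbq⟩ with hbP | hbQ
      · have hbS : b ∉ S := fun h => hbn (mem_inter.2 ⟨h, hbP⟩)
        have hby : b ≠ y := by
          rintro rfl
          exact hyP hbP
        have hbT : b ∈ T := ((hcov b).2 ⟨hbx, hby⟩).resolve_left hbS
        exact hnST a haS b hbT
      · exact hno a haP b hbQ
    · have : (S ∩ Q).card + 1 > 0 := by omega
      omega
  · have hne : (S ∩ Q).Nonempty := by
      rw [nonempty_iff_ne_empty]
      intro h0
      rw [h0] at h1
      have := ex_pair G y p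
      rw [card_empty] at h1
      omega
    refine ⟨p, y, S ∩ Q, ((univ.erase p).erase y) \ (S ∩ Q), ⟨?_, hne, ⟨x, ?_⟩, disjoint_sdiff,
      ?_, ?_⟩, h1, ?_⟩
    · rintro rfl
      exact hyS hpS
    · simp only [mem_sdiff, mem_erase, mem_univ, and_true, mem_inter, not_and]
      exact ⟨⟨fun h => hxy h, fun h => hxS (h ▸ hpS)⟩, fun h => absurd h hxS⟩
    · intro a
      simp only [mem_sdiff, mem_erase, mem_univ, and_true]
      constructor
      · rintro (h | h)
        · constructor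
          · rintro rfl
            exact hpQ (mem_inter.1 h).2
          · rintro rfl
            exact hyS (mem_inter.1 h).1
        · exact ⟨h.1.2, h.1.1⟩
      · rintro ⟨h2, h3⟩
        by_cases h4 : a ∈ S ∩ Q
        · exact Or.inl h4
        · exact Or.inr ⟨⟨h3, h2⟩, h4⟩
    · intro a ha b hb
      simp only [mem_sdiff, mem_erase, mem_univ, and_true] at hb
      obtain ⟨⟨hby, hbp⟩, hbn⟩ := hb
      have haS := (mem_inter.1 ha).1
      have haQ := (mem_inter.1 ha).2
      by_cases hbq : b = q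
      · subst hbq
        exact hnST a haS _ hqT
      rcases (hPQ b).2 ⟨hbp, hbq⟩ with hbP | hbQ
      · exact hswap _ _ (hno b hbP a haQ)
      · have hbS : b ∉ S := fun h => hbn (mem_inter.2 ⟨h, hbQ⟩)
        have hbx : b ≠ x := by
          rintro rfl
          exact hxQ hbQ
        have hbT : b ∈ T := ((hcov b).2 ⟨hbx, hby⟩).resolve_left hbS
        exact hnST a haS b hbT
    · have : (S ∩ P).card + 1 > 0 := by omega
      omega

/-- a 2-cut `{u, v}` with `u`, `v` on different sides of `{x, y}` separates `x` and `y`. -/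
theorem cross_symm {G : Finset (Sym2 V)} (hcut : ∀ z, ¬ Disc (univ.erase z) G) {x y u v : V}
    (hux : u ≠ x) (huy : u ≠ y) (hvx : v ≠ x) (hvy : v ≠ y)
    {C D P Q : Finset V} (hCD : ∀ a, (a ∈ C ∨ a ∈ D) ↔ (a ≠ x ∧ a ≠ y)) (hdC : Disjoint C D)
    (hnC : ∀ a ∈ C, ∀ b ∈ D, s(a, b) ∉ G) (huC : u ∈ C) (hvD : v ∈ D)
    (hQn : Q.Nonempty) (hPQ : ∀ a, (a ∈ P ∨ a ∈ Q) ↔ (a ≠ u ∧ a ≠ v)) (hdP : Disjoint P Q)
    (hnP : ∀ a ∈ P, ∀ b ∈ Q, s(a, b) ∉ G) (hxP : x ∈ P) (hyP : y ∈ P) : False := by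
  obtain ⟨q, hq⟩ := hQn
  have hswap : ∀ a b, s(a, b) ∉ G → s(b, a) ∉ G := by
    intro a b h
    rwa [Sym2.eq_swap]
  have hQu : ∀ a ∈ Q, a ≠ u ∧ a ≠ v := fun a ha => (hPQ a).1 (Or.inr ha)
  have hQx : ∀ a ∈ Q, a ≠ x ∧ a ≠ y := by
    intro a ha
    constructor
    · rintro rfl
      exact Finset.disjoint_left.1 hdP hxP ha
    · rintro rfl
      exact Finset.disjoint_left.1 hdP hyP ha
  have hxQ : x ∉ Q := fun h => Finset.disjoint_left.1 hdP hxP h
  rcases (hCD q).2 (hQx q hq) with h | h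
  · -- `Q ∩ C` hangs at `u`
    refine hcut u (cutz (A := Q ∩ C) (w := x) ⟨q, mem_inter.2 ⟨hq, h⟩⟩ ?_ ?_ hux.symm ?_)
    · intro h'
      exact (hQu u (mem_inter.1 h').1).1 rfl
    · intro h'
      exact hxQ (mem_inter.1 h').1
    · intro a ha b hb hbu
      have haQ := (mem_inter.1 ha).1
      have haC := (mem_inter.1 ha).2
      by_cases hbv : b = v
      · subst hbv
        exact hnC a haC _ hvD
      rcases (hPQ b).2 ⟨hbu, hbv⟩ with hbP | hbQ
      · exact hswap _ _ (hnP b hbP a haQ)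
      · have hbC : b ∉ C := fun h' => hb (mem_inter.2 ⟨hbQ, h'⟩)
        exact hnC a haC b (((hCD b).2 (hQx b hbQ)).resolve_left hbC)
  · refine hcut v (cutz (A := Q ∩ D) (w := x) ⟨q, mem_inter.2 ⟨hq, h⟩⟩ ?_ ?_ hvx.symm ?_)
    · intro h'
      exact (hQu v (mem_inter.1 h').1).2 rfl
    · intro h'
      exact hxQ (mem_inter.1 h').1
    · intro a ha b hb hbv
      have haQ := (mem_inter.1 ha).1
      have haD := (mem_inter.1 ha).2
      by_cases hbu : b = u
      · subst hbu
        exact hswap _ _ (hnC _ huC a haD)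
      rcases (hPQ b).2 ⟨hbu, hbv⟩ with hbP | hbQ
      · exact hswap _ _ (hnP b hbP a haQ)
      · have hbD : b ∉ D := fun h' => hb (mem_inter.2 ⟨hbQ, h'⟩)
        exact hswap _ _ (hnC b (((hCD b).2 (hQx b hbQ)).resolve_right hbD) a haD)

/-- if `{u, v}` separates `x` from `y`, then every side of every 2-separation at `{x, y}` contains
`u` or `v`. -/
theorem side_meets {G : Finset (Sym2 V)} (hcut : ∀ z, ¬ Disc (univ.erase z) G) {x y u v : V}
    {S T P Q : Finset V} (hT : TS G x y S T)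
    (hPQ : ∀ a, (a ∈ P ∨ a ∈ Q) ↔ (a ≠ u ∧ a ≠ v)) (hdP : Disjoint P Q)
    (hnP : ∀ a ∈ P, ∀ b ∈ Q, s(a, b) ∉ G) (hxP : x ∈ P) (hyQ : y ∈ Q)
    (huS : u ∈ S) (hvS : v ∈ S) : False := by
  obtain ⟨hxy, hSn, hTn, hST, hcov, hnST⟩ := hT
  have hswap : ∀ a b, s(a, b) ∉ G → s(b, a) ∉ G := by
    intro a b h
    rwa [Sym2.eq_swap]
  have hyP : y ∉ P := fun h => Finset.disjoint_left.1 hdP h hyQ
  have hxQ : x ∉ Q := fun h => Finset.disjoint_left.1 hdP hxP h
  have hxT : x ∉ T := fun h => ((hcov x).1 (Or.inr h)).1 rfl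
  have hyT : y ∉ T := fun h => ((hcov y).1 (Or.inr h)).2 rfl
  obtain ⟨t, ht⟩ := hTn
  have htu : t ≠ u := by
    rintro rfl
    exact Finset.disjoint_left.1 hST huS ht
  have htv : t ≠ v := by
    rintro rfl
    exact Finset.disjoint_left.1 hST hvS ht
  rcases (hPQ t).2 ⟨htu, htv⟩ with h | h
  · refine hcut x (cutz (A := T ∩ P) (w := y) ⟨t, mem_inter.2 ⟨ht, h⟩⟩ ?_ ?_ hxy.symm ?_)
    · intro h'
      exact hxT (mem_inter.1 h').1
    · intro h'
      exact hyT (mem_inter.1 h').1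
    · intro a ha b hb hbx
      have haT := (mem_inter.1 ha).1
      have haP := (mem_inter.1 ha).2
      by_cases hbu : b = u
      · subst hbu
        exact hswap _ _ (hnST _ huS a haT)
      by_cases hbv : b = v
      · subst hbv
        exact hswap _ _ (hnST _ hvS a haT)
      rcases (hPQ b).2 ⟨hbu, hbv⟩ with hbP | hbQ
      · have hbT : b ∉ T := fun h' => hb (mem_inter.2 ⟨h', hbP⟩)
        have hby : b ≠ y := by
          rintro rfl
          exact hyP hbP
        exact hswap _ _ (hnST b (((hcov b).2 ⟨hbx, hby⟩).resolve_right hbT) a haT)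
      · exact hnP a haP b hbQ
  · refine hcut y (cutz (A := T ∩ Q) (w := x) ⟨t, mem_inter.2 ⟨ht, h⟩⟩ ?_ ?_ hxy ?_)
    · intro h'
      exact hyT (mem_inter.1 h').1
    · intro h'
      exact hxT (mem_inter.1 h').1
    · intro a ha b hb hby
      have haT := (mem_inter.1 ha).1
      have haQ := (mem_inter.1 ha).2
      by_cases hbu : b = u
      · subst hbu
        exact hswap _ _ (hnST _ huS a haT)
      by_cases hbv : b = v
      · subst hbv
        exact hswap _ _ (hnST _ hvS a haT)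
      rcases (hPQ b).2 ⟨hbu, hbv⟩ with hbP | hbQ
      · exact hswap _ _ (hnP b hbP a haQ)
      · have hbT : b ∉ T := fun h' => hb (mem_inter.2 ⟨h', hbQ⟩)
        have hbx : b ≠ x := by
          rintro rfl
          exact hxQ hbQ
        exact hswap _ _ (hnST b (((hcov b).2 ⟨hbx, hby⟩).resolve_right hbT) a haT)

theorem TS.symm {G : Finset (Sym2 V)} {x y : V} {S T : Finset V} (h : TS G x y S T) :
    TS G x y T S := by
  obtain ⟨h1, h2, h3, h4, h5, h6⟩ := h
  refine ⟨h1, h3, h2, h4.symm, fun a => ?_, fun a ha b hb => ?_⟩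
  · rw [or_comm]
    exact h5 a
  · rw [Sym2.eq_swap]
    exact h6 b hb a ha

theorem mem_cov {G : Finset (Sym2 V)} {u v : V} {P Q : Finset V}
    (h : P ∪ Q = (univ.erase u).erase v) : ∀ a, (a ∈ P ∨ a ∈ Q) ↔ (a ≠ u ∧ a ≠ v) := by
  intro a
  rw [← mem_union, h]
  simp [and_comm]

/-- the minimal separation is uncrossed. -/
theorem unc_of_min {G : Finset (Sym2 V)} (hcut : ∀ z, ¬ Disc (univ.erase z) G) {x y : V}
    {S T : Finset V} (hT : TS G x y S T) (hex : S.card + 2 ≤ ex G (insert x (insert y S)))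
    (hmin : ∀ x' y' S' T', TS G x' y' S' T' → S'.card + 2 ≤ ex G (insert x' (insert y' S')) →
      S.card ≤ S'.card) : Unc G x y := by
  intro u v hux huy hvx hvy hDisc hSep
  obtain ⟨C, D, hdC, hCD, hnC, hWC, hWD⟩ := hSep
  obtain ⟨P, Q, hPn, hQn, hdP, hPQ, hnP⟩ := hDisc
  have hCD' := mem_cov (G := G) hCD
  have hPQ' := mem_cov (G := G) hPQ
  have hnC' : ∀ a ∈ D, ∀ b ∈ C, s(a, b) ∉ G := fun a ha b hb => by
    rw [Sym2.eq_swap]
    exact hnC b hb a ha
  have hnP' : ∀ a ∈ Q, ∀ b ∈ P, s(a, b) ∉ G := fun a ha b hb => by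
    rw [Sym2.eq_swap]
    exact hnP b hb a ha
  have hPQs : ∀ a, (a ∈ Q ∨ a ∈ P) ↔ (a ≠ u ∧ a ≠ v) := fun a => by
    rw [or_comm]
    exact hPQ' a
  have hCDs : ∀ a, (a ∈ D ∨ a ∈ C) ↔ (a ≠ x ∧ a ≠ y) := fun a => by
    rw [or_comm]
    exact hCD' a
  -- `u`, `v` on different sides
  have huv : (u ∈ C ∧ v ∈ D) ∨ (u ∈ D ∧ v ∈ C) := by
    obtain ⟨a, ha⟩ := hWC
    obtain ⟨b, hb⟩ := hWD
    rw [mem_inter, mem_insert, mem_singleton] at ha hb
    rcases ha with ⟨rfl | rfl, ha⟩ <;> rcases hb with ⟨rfl | rfl, hb⟩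
    · exact absurd hb (Finset.disjoint_left.1 hdC ha)
    · exact Or.inl ⟨ha, hb⟩
    · exact Or.inr ⟨hb, ha⟩
    · exact absurd hb (Finset.disjoint_left.1 hdC ha)
  -- `x`, `y` on different sides
  have key : ∀ P Q : Finset V, Q.Nonempty → (∀ a, (a ∈ P ∨ a ∈ Q) ↔ (a ≠ u ∧ a ≠ v)) →
      Disjoint P Q → (∀ a ∈ P, ∀ b ∈ Q, s(a, b) ∉ G) → x ∈ P → y ∈ P → False := by
    intro P Q h1 h2 h3 h4 h5 h6
    rcases huv with ⟨h7, h8⟩ | ⟨h7, h8⟩
    · exact cross_symm hcut hux huy hvx hvy hCD' hdC hnC h7 h8 h1 h2 h3 h4 h5 h6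
    · exact cross_symm hcut hux huy hvx hvy hCDs hdC.symm hnC' h7 h8 h1 h2 h3 h4 h5 h6
  -- the common end
  have fin : ∀ P Q : Finset V, (∀ a, (a ∈ P ∨ a ∈ Q) ↔ (a ≠ u ∧ a ≠ v)) →
      Disjoint P Q → (∀ a ∈ P, ∀ b ∈ Q, s(a, b) ∉ G) → x ∈ P → y ∈ Q → False := by
    intro P Q h2 h3 h4 h5 h6
    have huST := (hT.2.2.2.2.1 u).2 ⟨hux, huy⟩
    have hvST := (hT.2.2.2.2.1 v).2 ⟨hvx, hvy⟩
    rcases huST with hu | hu <;> rcases hvST with hv | hv
    · exact side_meets hcut hT h2 h3 h4 h5 h6 hu hv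
    · obtain ⟨x', y', S', T', h7, h8, h9⟩ := smaller hT hex hu hv h2 h3 h5 h6 h4
      exact absurd (hmin x' y' S' T' h7 h8) (by omega)
    · have h2' : ∀ a, (a ∈ P ∨ a ∈ Q) ↔ (a ≠ v ∧ a ≠ u) := fun a => by
        rw [h2 a, and_comm]
      obtain ⟨x', y', S', T', h7, h8, h9⟩ := smaller hT hex hv hu h2' h3 h5 h6 h4
      exact absurd (hmin x' y' S' T' h7 h8) (by omega)
    · exact side_meets hcut hT.symm h2 h3 h4 h5 h6 hu hv
  have hx := (hPQ' x).2 ⟨hux.symm, hvx.symm⟩
  have hy := (hPQ' y).2 ⟨huy.symm, hvy.symm⟩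
  rcases hx with hx | hx <;> rcases hy with hy | hy
  · exact key P Q hQn hPQ' hdP hnP hx hy
  · exact fin P Q hPQ' hdP hnP hx hy
  · exact fin Q P hPQs hdP.symm hnP' hx hy
  · exact key Q P hPn hPQs hdP.symm hnP' hx hy

open Classical in
/-- **(E)** existence of an uncrossed 2-cut. -/
theorem exists_unc {G : Finset (Sym2 V)} (hcut : ∀ z, ¬ Disc (univ.erase z) G)
    (he : Fintype.card V + 1 ≤ (G.filter fun e => ¬ e.IsDiag).card)
    (h2 : ∃ x y, x ≠ y ∧ Disc ((univ.erase x).erase y) G) :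
    ∃ x y, x ≠ y ∧ Disc ((univ.erase x).erase y) G ∧ Unc G x y := by
  obtain ⟨x, y, hxy, S, T, hS, hT, hd, hu, hn⟩ := h2
  have hTS : TS G x y S T := ⟨hxy, hS, hT, hd, mem_cov (G := G) hu, hn⟩
  have hcov := hTS.2.2.2.2.1
  have hxS : x ∉ S := fun h => ((hcov x).1 (Or.inl h)).1 rfl
  have hyS : y ∉ S := fun h => ((hcov y).1 (Or.inl h)).2 rfl
  have hxT : x ∉ T := fun h => ((hcov x).1 (Or.inr h)).1 rfl
  have hyT : y ∉ T := fun h => ((hcov y).1 (Or.inr h)).2 rfl
  have huniv : (univ : Finset V) = insert x (insert y S) ∪ insert x (insert y T) := by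
    ext a
    simp only [mem_univ, mem_union, mem_insert, true_iff]
    by_cases h1 : a = x
    · simp [h1]
    by_cases h2 : a = y
    · simp [h2]
    rcases (hcov a).2 ⟨h1, h2⟩ with h | h
    · simp [h]
    · simp [h]
  have h1 : ex G (univ : Finset V) ≤
      ex G (insert x (insert y S)) + ex G (insert x (insert y T)) := by
    rw [huniv]
    refine ex_le _ _ _ ?_
    intro a ha b hb haB hbA
    have haS : a ∈ S := by
      rcases mem_insert.1 ha with h | h
      · exact absurd (h ▸ mem_insert_self _ _) haB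
      rcases mem_insert.1 h with h | h
      · exact absurd (h ▸ mem_insert_of_mem (mem_insert_self _ _)) haB
      · exact h
    have hbT : b ∈ T := by
      rcases mem_insert.1 hb with h | h
      · exact absurd (h ▸ mem_insert_self _ _) hbA
      rcases mem_insert.1 h with h | h
      · exact absurd (h ▸ mem_insert_of_mem (mem_insert_self _ _)) hbA
      · exact h
    exact hn a haS b hbT
  have h2 : ex G (univ : Finset V) = (G.filter fun e => ¬ e.IsDiag).card := by
    unfold ex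
    simp
  have h3 : Fintype.card V = S.card + T.card + 2 := by
    have h4 : (univ : Finset V) = insert x (insert y (S ∪ T)) := by
      ext a
      simp only [mem_univ, mem_insert, mem_union, true_iff]
      by_cases h1 : a = x
      · simp [h1]
      by_cases h2 : a = y
      · simp [h2]
      rcases (hcov a).2 ⟨h1, h2⟩ with h | h
      · simp [h]
      · simp [h]
    rw [← card_univ, h4, card_insert_of_notMem (by simp [hxy, hxS, hxT]),
      card_insert_of_notMem (by simp [hyS, hyT]), card_union_of_disjoint hd]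
  have h5 : ∃ k, ∃ x y S T, TS G x y S T ∧ S.card + 2 ≤ ex G (insert x (insert y S)) ∧
      S.card = k := by
    by_cases h6 : S.card + 2 ≤ ex G (insert x (insert y S))
    · exact ⟨S.card, x, y, S, T, hTS, h6, rfl⟩
    · exact ⟨T.card, x, y, T, S, hTS.symm, by omega, rfl⟩
  obtain ⟨x', y', S', T', h6, h7, h8⟩ := Nat.find_spec h5
  refine ⟨x', y', h6.1, ⟨S', T', h6.2.1, h6.2.2.1, h6.2.2.2.1, ?_, h6.2.2.2.2.2⟩,
    unc_of_min hcut h6 h7 ?_⟩
  · ext a
    rw [mem_union, h6.2.2.2.2.1 a]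
    simp [and_comm]
  · intro x'' y'' S'' T'' h9 h10
    rw [h8]
    exact Nat.find_min' h5 ⟨x'', y'', S'', T'', h9, h10, rfl⟩

end H53E
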